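import Pool.Agent.J4H60.IF.Stm

/-!
# (M) of project IF: the triples of an extremal family form a perfect matching
-/

set_option autoImplicit false

namespace Pool.Agent.J4H44.IF

open Finset Pool.Agent.J4H60.IF

/-- an intersecting family of triples containing all triples of a 4-set has at most 13 members -/
lemma hm (C : Finset V) (hC : ∀ Y ∈ C, Y.card = 3) (hint : ∀ Y ∈ C, ∀ Z ∈ C, ¬ Disjoint Y Z)
    (Q : V) (hQ : Q.card = 4) (hQC : ∀ Y, Y ⊆ Q → Y.card = 3 → Y ∈ C) : C.card ≤ 13 := by
  have h1 : ∀ Y ∈ C, (Y \ Q).card ≤ 1 := by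
    intro Y hY
    by_contra hcon
    push Not at hcon
    have h2 := Finset.card_inter_add_card_sdiff Y Q
    have h3 := Finset.card_inter_add_card_sdiff Q Y
    rw [hC Y hY] at h2
    rw [hQ, Finset.inter_comm] at h3
    have h4 : 3 ≤ (Q \ Y).card := by omega
    obtain ⟨Z, hZ, hZ3⟩ := Finset.exists_subset_card_eq h4
    refine hint Y hY Z (hQC Z (hZ.trans sdiff_subset) hZ3) ?_
    exact Finset.disjoint_sdiff.mono_right hZ
  have hX : (Qᶜ).card = 3 := by
    rw [Finset.card_compl, hQ, Fintype.card_fin]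
  obtain ⟨a, b, c, hab, hac, hbc, hXabc⟩ := Finset.card_eq_three.1 hX
  have key : ∀ x x' : Fin 7, x ≠ x' →
      (C.filter (fun Y => Y \ Q = {x})).card + (C.filter (fun Y => Y \ Q = {x'})).card ≤ 6 := by
    intro x x' hxx
    have hi1 : Set.InjOn (fun Y : V => Y ∩ Q) (C.filter (fun Y => Y \ Q = {x}) : Finset V) := by
      intro Y hY Z hZ h
      rw [Finset.mem_coe, Finset.mem_filter] at hY hZ
      simp only at h
      rw [← Finset.sdiff_union_inter Y Q, ← Finset.sdiff_union_inter Z Q, hY.2, hZ.2, h]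
    have hi2 : Set.InjOn (fun Y : V => Q \ Y) (C.filter (fun Y => Y \ Q = {x'}) : Finset V) := by
      intro Y hY Z hZ h
      rw [Finset.mem_coe, Finset.mem_filter] at hY hZ
      simp only at h
      have h5 : ∀ W : V, W ∩ Q = Q \ (Q \ W) := by
        intro W
        rw [sdiff_sdiff_right_self, Finset.inf_eq_inter, Finset.inter_comm]
      rw [← Finset.sdiff_union_inter Y Q, ← Finset.sdiff_union_inter Z Q, hY.2, hZ.2, h5 Y, h5 Z, h]
    rw [← Finset.card_image_of_injOn hi1, ← Finset.card_image_of_injOn hi2,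
      ← Finset.card_union_of_disjoint]
    · have hP : (Q.powersetCard 2).card = 6 := by
        rw [Finset.card_powersetCard, hQ]
        rfl
      rw [← hP]
      refine Finset.card_le_card (Finset.union_subset ?_ ?_)
      · intro W hW
        obtain ⟨Y, hY, rfl⟩ := Finset.mem_image.1 hW
        rw [Finset.mem_filter] at hY
        rw [Finset.mem_powersetCard]
        refine ⟨Finset.inter_subset_right, ?_⟩
        have h2 := Finset.card_inter_add_card_sdiff Y Q
        rw [hC Y hY.1, hY.2, Finset.card_singleton] at h2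
        omega
      · intro W hW
        obtain ⟨Y, hY, rfl⟩ := Finset.mem_image.1 hW
        rw [Finset.mem_filter] at hY
        rw [Finset.mem_powersetCard]
        refine ⟨Finset.sdiff_subset, ?_⟩
        have h2 := Finset.card_inter_add_card_sdiff Y Q
        have h3 := Finset.card_inter_add_card_sdiff Q Y
        rw [hC Y hY.1, hY.2, Finset.card_singleton] at h2
        rw [hQ, Finset.inter_comm] at h3
        omega
    · rw [Finset.disjoint_left]
      intro W hW hW'
      obtain ⟨Y, hY, rfl⟩ := Finset.mem_image.1 hW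
      obtain ⟨Z, hZ, hYZ⟩ := Finset.mem_image.1 hW'
      rw [Finset.mem_filter] at hY hZ
      change Q \ Z = Y ∩ Q at hYZ
      refine hint Y hY.1 Z hZ.1 ?_
      rw [Finset.disjoint_left]
      intro u huY huZ
      by_cases hu : u ∈ Q
      · have h6 : u ∈ Q \ Z := by
          rw [hYZ]
          exact Finset.mem_inter.2 ⟨huY, hu⟩
        exact (Finset.mem_sdiff.1 h6).2 huZ
      · have h7 : u ∈ Y \ Q := Finset.mem_sdiff.2 ⟨huY, hu⟩
        have h8 : u ∈ Z \ Q := Finset.mem_sdiff.2 ⟨huZ, hu⟩
        rw [hY.2, Finset.mem_singleton] at h7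
        rw [hZ.2, Finset.mem_singleton] at h8
        exact hxx (h7.symm.trans h8)
  have hcov : C ⊆ Q.powersetCard 3 ∪ (C.filter (fun Y => Y \ Q = {a}) ∪
      (C.filter (fun Y => Y \ Q = {b}) ∪ C.filter (fun Y => Y \ Q = {c}))) := by
    intro Y hY
    simp only [Finset.mem_union, Finset.mem_filter, Finset.mem_powersetCard]
    have h2 := h1 Y hY
    rcases Nat.le_one_iff_eq_zero_or_eq_one.1 h2 with h3 | h3
    · left
      rw [Finset.card_eq_zero, Finset.sdiff_eq_empty_iff_subset] at h3
      exact ⟨h3, hC Y hY⟩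
    · right
      obtain ⟨x, hx⟩ := Finset.card_eq_one.1 h3
      have h4 : x ∈ Y \ Q := by
        rw [hx]
        exact Finset.mem_singleton_self x
      have h5 : x ∈ Qᶜ := Finset.mem_compl.2 (Finset.mem_sdiff.1 h4).2
      rw [hXabc] at h5
      simp only [Finset.mem_insert, Finset.mem_singleton] at h5
      rcases h5 with rfl | rfl | rfl
      · exact Or.inl ⟨hY, hx⟩
      · exact Or.inr (Or.inl ⟨hY, hx⟩)
      · exact Or.inr (Or.inr ⟨hY, hx⟩)
  have h9 := (Finset.card_le_card hcov).trans ((Finset.card_union_le _ _).trans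
    (Nat.add_le_add_left ((Finset.card_union_le _ _).trans
      (Nat.add_le_add_left (Finset.card_union_le _ _) _)) _))
  have h13 := key a b hab
  have h14 := key a c hac
  have h15 := key b c hbc
  have h16 : (Q.powersetCard 3).card = 4 := by
    rw [Finset.card_powersetCard, hQ]
    rfl
  omega

/-- the number of members of `S` disjoint from `X` -/
def dis (X : V) (S : Finset V) : ℕ := (S.filter (fun Y => Disjoint X Y)).card

lemma dis_T (X : V) (hX : X.card = 3) : dis X ((univ : V).powersetCard 3) = 4 := by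
  have h1 : ((univ : V).powersetCard 3).filter (fun Y => Disjoint X Y) = (Xᶜ).powersetCard 3 := by
    ext Y
    rw [Finset.mem_filter, Finset.mem_powersetCard, Finset.mem_powersetCard]
    constructor
    · rintro ⟨⟨_, h2⟩, h3⟩
      exact ⟨fun u hu => Finset.mem_compl.2 fun hu' => Finset.disjoint_left.1 h3 hu' hu, h2⟩
    · rintro ⟨h2, h3⟩
      exact ⟨⟨Finset.subset_univ _, h3⟩, Finset.disjoint_left.2 fun u hu hu' =>
        (Finset.mem_compl.1 (h2 hu')) hu⟩
  unfold dis
  rw [h1, Finset.card_powersetCard, Finset.card_compl, hX, Fintype.card_fin]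
  rfl

lemma dis_split (X : V) (T G : Finset V) (h : G ⊆ T) : dis X T = dis X G + dis X (T \ G) := by
  unfold dis
  rw [← Finset.card_union_of_disjoint]
  · rw [← Finset.filter_union, Finset.union_sdiff_of_subset h]
  · exact Finset.disjoint_filter_filter Finset.disjoint_sdiff

lemma dis_comm (S T : Finset V) : ∑ X ∈ S, dis X T = ∑ X ∈ T, dis X S := by
  unfold dis
  simp only [Finset.card_filter]
  rw [Finset.sum_comm]
  refine Finset.sum_congr rfl fun X _ => Finset.sum_congr rfl fun Y _ => ?_
  simp only [disjoint_comm]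

lemma D_eq (G : Finset V) (hG : ∀ X ∈ G, X.card = 3) : D G = ∑ X ∈ G, dis X G := by
  unfold D dis
  rw [Finset.card_filter, Finset.sum_product]
  refine Finset.sum_congr rfl fun X hX => ?_
  rw [Finset.card_filter]
  refine Finset.sum_congr rfl fun Y hY => ?_
  have h1 : (X ≠ Y ∧ Disjoint X Y) ↔ Disjoint X Y := by
    refine ⟨fun h => h.2, fun h => ⟨?_, h⟩⟩
    rintro rfl
    rw [disjoint_self, Finset.bot_eq_empty] at h
    have := hG X hX
    rw [h] at this
    simp at this
  simp only [h1]

lemma card_U : U.card = 64 := by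
  decide +kernel

theorem t_M : S_M := by
  intro A hA h3 hU hD
  obtain ⟨G, hG⟩ : ∃ G, G = A.filter (fun X => X.card = 3) := ⟨_, rfl⟩
  rw [← hG]
  have hG3 : ∀ X ∈ G, X.card = 3 := by
    intro X hX
    rw [hG, Finset.mem_filter] at hX
    exact hX.2
  have hGA : G ⊆ A := by
    rw [hG]
    exact Finset.filter_subset _ _
  have hcU : A.filter (fun X => ¬ X.card = 3) = U := by
    ext X
    rw [Finset.mem_filter, U, Finset.mem_filter]
    constructor
    · rintro ⟨h4, h5⟩
      have := h3 X h4
      exact ⟨Finset.mem_univ _, by omega⟩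
    · rintro ⟨h4, h5⟩
      exact ⟨hU (Finset.mem_filter.2 ⟨h4, h5⟩), by omega⟩
  have hGc : G.card = 20 := by
    have h4 := Finset.card_filter_add_card_filter_not (s := A) (fun X : V => X.card = 3)
    rw [hcU, card_U, ← hG] at h4
    omega
  obtain ⟨T, hT⟩ : ∃ T : Finset V, T = (univ : V).powersetCard 3 := ⟨_, rfl⟩
  have hTc : T.card = 35 := by
    rw [hT, Finset.card_powersetCard, Finset.card_univ, Fintype.card_fin]
    rfl
  have hGT : G ⊆ T := by
    intro X hX
    rw [hT, Finset.mem_powersetCard]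
    exact ⟨Finset.subset_univ _, hG3 X hX⟩
  have hT3 : ∀ X ∈ T, X.card = 3 := by
    intro X hX
    rw [hT, Finset.mem_powersetCard] at hX
    exact hX.2
  obtain ⟨C, hC⟩ : ∃ C : Finset V, C = T \ G := ⟨_, rfl⟩
  have hCc : C.card = 15 := by
    rw [hC, Finset.card_sdiff_of_subset hGT, hTc, hGc]
  have hC3 : ∀ X ∈ C, X.card = 3 := fun X hX => by
    rw [hC] at hX
    exact hT3 X (Finset.mem_sdiff.1 hX).1
  have hsp : ∀ X, dis X T = dis X G + dis X C := by
    intro X
    rw [hC]
    exact dis_split X T G hGT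
  have hDG : D G = ∑ X ∈ G, dis X G := D_eq G hG3
  have hDA : 40 + D G ≤ D A := by
    have hne : ∀ X : V, X.card = 3 → X ≠ Xᶜ := by
      intro X hX h
      have h4 := Finset.card_compl X
      rw [← h, hX, Fintype.card_fin] at h4
      omega
    have hcU : ∀ X ∈ G, Xᶜ ∈ A := by
      intro X hX
      refine hU (Finset.mem_filter.2 ⟨Finset.mem_univ _, ?_⟩)
      rw [Finset.card_compl, hG3 X hX, Fintype.card_fin]
    have hcG : ∀ X ∈ G, Xᶜ ∉ G := by
      intro X hX h
      have h4 := hG3 _ h
      rw [Finset.card_compl, hG3 X hX, Fintype.card_fin] at h4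
      omega
    have h4 : ((G ×ˢ G).filter (fun p => p.1 ≠ p.2 ∧ Disjoint p.1 p.2)) ∪
        (G.image (fun X => ((X, Xᶜ) : V × V)) ∪ G.image (fun X => ((Xᶜ, X) : V × V))) ⊆
        (A ×ˢ A).filter (fun p => p.1 ≠ p.2 ∧ Disjoint p.1 p.2) := by
      refine Finset.union_subset ?_ (Finset.union_subset ?_ ?_)
      · intro p hp
        rw [Finset.mem_filter, Finset.mem_product] at hp ⊢
        exact ⟨⟨hGA hp.1.1, hGA hp.1.2⟩, hp.2⟩
      · intro p hp
        obtain ⟨X, hX, rfl⟩ := Finset.mem_image.1 hp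
        rw [Finset.mem_filter, Finset.mem_product]
        exact ⟨⟨hGA hX, hcU X hX⟩, hne X (hG3 X hX), disjoint_compl_right⟩
      · intro p hp
        obtain ⟨X, hX, rfl⟩ := Finset.mem_image.1 hp
        rw [Finset.mem_filter, Finset.mem_product]
        exact ⟨⟨hcU X hX, hGA hX⟩, (hne X (hG3 X hX)).symm, disjoint_compl_left⟩
    have h5 := Finset.card_le_card h4
    rw [Finset.card_union_of_disjoint, Finset.card_union_of_disjoint, Finset.card_image_of_injective,
      Finset.card_image_of_injective, hGc] at h5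
    · unfold D
      omega
    · intro X Y h
      exact (Prod.ext_iff.1 h).2
    · intro X Y h
      exact (Prod.ext_iff.1 h).1
    · rw [Finset.disjoint_left]
      intro p hp hp'
      obtain ⟨X, hX, rfl⟩ := Finset.mem_image.1 hp
      obtain ⟨Y, hY, h⟩ := Finset.mem_image.1 hp'
      have h6 : Yᶜ = X := (Prod.ext_iff.1 h).1
      exact hcG Y hY (h6 ▸ hX)
    · rw [Finset.disjoint_left]
      intro p hp hp'
      rw [Finset.mem_filter, Finset.mem_product] at hp
      rcases Finset.mem_union.1 hp' with h | h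
      · obtain ⟨X, hX, rfl⟩ := Finset.mem_image.1 h
        exact hcG X hX hp.1.2
      · obtain ⟨X, hX, rfl⟩ := Finset.mem_image.1 h
        exact hcG X hX hp.1.1
  have h80 : ∑ X ∈ G, dis X G + ∑ X ∈ G, dis X C = 80 := by
    rw [← Finset.sum_add_distrib]
    have h4 : ∀ X ∈ G, dis X G + dis X C = 4 := by
      intro X hX
      rw [← hsp X, hT]
      exact dis_T X (hG3 X hX)
    rw [Finset.sum_congr rfl h4, Finset.sum_const, hGc]
    rfl
  have h60 : ∑ X ∈ C, dis X G + ∑ X ∈ C, dis X C = 60 := by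
    rw [← Finset.sum_add_distrib]
    have h4 : ∀ X ∈ C, dis X G + dis X C = 4 := by
      intro X hX
      rw [← hsp X, hT]
      exact dis_T X (hC3 X hX)
    rw [Finset.sum_congr rfl h4, Finset.sum_const, hCc]
    rfl
  have hcm : ∑ X ∈ G, dis X C = ∑ X ∈ C, dis X G := dis_comm G C
  have hDG20 : ∑ X ∈ G, dis X G = 20 := by omega
  have hCC : ∑ X ∈ C, dis X C = 0 := by omega
  have hint : ∀ Y ∈ C, ∀ Z ∈ C, ¬ Disjoint Y Z := by
    intro Y hY Z hZ hYZ
    rw [Finset.sum_eq_zero_iff] at hCC
    have h4 := hCC Y hY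
    unfold dis at h4
    rw [Finset.card_eq_zero] at h4
    have h5 : Z ∈ C.filter (fun Z => Disjoint Y Z) := Finset.mem_filter.2 ⟨hZ, hYZ⟩
    rw [h4] at h5
    exact absurd h5 (Finset.notMem_empty Z)
  have hone : ∀ X ∈ G, 1 ≤ dis X G := by
    intro X hX
    by_contra hcon
    have h4 : dis X G = 0 := by omega
    unfold dis at h4
    rw [Finset.card_eq_zero] at h4
    have h5 := hm C hC3 hint Xᶜ (by rw [Finset.card_compl, hG3 X hX, Fintype.card_fin]) (by
      intro Y hY hY3
      rw [hC]
      refine Finset.mem_sdiff.2 ⟨?_, fun hYG => ?_⟩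
      · rw [hT, Finset.mem_powersetCard]
        exact ⟨Finset.subset_univ _, hY3⟩
      · have h6 : Y ∈ G.filter (fun Y => Disjoint X Y) := by
          refine Finset.mem_filter.2 ⟨hYG, ?_⟩
          exact Finset.disjoint_left.2 fun u hu hu' => (Finset.mem_compl.1 (hY hu')) hu
        rw [h4] at h6
        exact absurd h6 (Finset.notMem_empty Y))
    omega
  refine ⟨hGc, fun X hX => ?_⟩
  have h1 : dis X G = 1 := by
    have h4 : ∀ Y ∈ G, (fun _ : V => 1) Y = (fun Y => dis Y G) Y := by
      refine (Finset.sum_eq_sum_iff_of_le (f := fun _ : V => 1) (g := fun Y => dis Y G)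
        (fun Y hY => hone Y hY)).1 ?_
      rw [Finset.sum_const, hGc, hDG20]
      rfl
    exact (h4 X hX).symm
  unfold dis at h1
  obtain ⟨Y, hY⟩ := Finset.card_eq_one.1 h1
  have h4 : Y ∈ G.filter (fun Y => Disjoint X Y) := by
    rw [hY]
    exact Finset.mem_singleton_self Y
  rw [Finset.mem_filter] at h4
  refine ⟨Y, h4, ?_⟩
  rintro Z ⟨hZ, hXZ⟩
  have h5 : Z ∈ G.filter (fun Y => Disjoint X Y) := Finset.mem_filter.2 ⟨hZ, hXZ⟩
  rw [hY, Finset.mem_singleton] at h5
  exact h5

end Pool.Agent.J4H44.IF
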